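import Pool.Agent.Y269.EG.Stm

/-! helper259, job EG-ES: graphs with degrees at most 3, large girth and average degree
at least 2.9 (Erdos and Sachs). -/

namespace Pool.Agent.Y259.EG

open SimpleGraph Pool.Agent.Y269.EG

section walks

variable {V : Type*} {G : SimpleGraph V}

/-- A trail through the edge `uv` splits there. -/
theorem split {u v : V} : ∀ {a b : V} (p : G.Walk a b), p.IsTrail → s(u, v) ∈ p.edges →
    (∃ (p1 : G.Walk a u) (p2 : G.Walk v b), p1.length + p2.length + 1 = p.length ∧
      s(u, v) ∉ p1.edges ∧ s(u, v) ∉ p2.edges) ∨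
    (∃ (p1 : G.Walk a v) (p2 : G.Walk u b), p1.length + p2.length + 1 = p.length ∧
      s(u, v) ∉ p1.edges ∧ s(u, v) ∉ p2.edges) := by
  intro a b p
  induction p with
  | nil => intro _ h; simp at h
  | @cons a a' b h q ih =>
    intro ht he
    rw [Walk.isTrail_cons] at ht
    obtain ⟨hq, hn⟩ := ht
    by_cases hE : s(u, v) = s(a, a')
    · rw [← hE] at hn
      rcases Sym2.eq_iff.mp hE with ⟨h1, h2⟩ | ⟨h1, h2⟩
      · subst h1 h2
        exact Or.inl ⟨Walk.nil, q, by simp, by simp, hn⟩
      · subst h1 h2
        exact Or.inr ⟨Walk.nil, q, by simp, by simp, hn⟩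
    · have he' : s(u, v) ∈ q.edges := by
        rw [Walk.edges_cons, List.mem_cons] at he
        exact he.resolve_left hE
      rcases ih hq he' with ⟨p1, p2, hl, h1, h2⟩ | ⟨p1, p2, hl, h1, h2⟩
      · refine Or.inl ⟨Walk.cons h p1, p2, ?_, ?_, h2⟩
        · simp only [Walk.length_cons]; omega
        · rw [Walk.edges_cons, List.mem_cons]
          rintro (h' | h')
          · exact hE h'
          · exact h1 h'
      · refine Or.inr ⟨Walk.cons h p1, p2, ?_, ?_, h2⟩
        · simp only [Walk.length_cons]; omega
        · rw [Walk.edges_cons, List.mem_cons]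
          rintro (h' | h')
          · exact hE h'
          · exact h1 h'

/-- A closed trail through `uv` gives a walk from `u` to `v` avoiding `uv`. -/
theorem around {u v a : V} (p : G.Walk a a) (hp : p.IsTrail) (he : s(u, v) ∈ p.edges) :
    ∃ q : G.Walk u v, q.length + 1 = p.length ∧ s(u, v) ∉ q.edges := by
  rcases split p hp he with ⟨p1, p2, hl, h1, h2⟩ | ⟨p1, p2, hl, h1, h2⟩
  · refine ⟨(p2.append p1).reverse, ?_, ?_⟩
    · rw [Walk.length_reverse, Walk.length_append]; omega
    · rw [Walk.edges_reverse, List.mem_reverse, Walk.edges_append, List.mem_append]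
      exact fun h => h.elim h2 h1
  · refine ⟨p2.append p1, ?_, ?_⟩
    · rw [Walk.length_append]; omega
    · rw [Walk.edges_append, List.mem_append]
      exact fun h => h.elim h2 h1

/-- If adding the edge `uv` creates a cycle of length less than `g` (and there was none),
then `u` and `v` have distance at most `g - 2`. -/
theorem close {u v : V} {g : ℕ} (hG : ∀ (a : V) (p : G.Walk a a), p.IsCycle → g ≤ p.length)
    {a : V} (c : (G ⊔ edge u v).Walk a a) (hc : c.IsCycle) (hl : c.length < g) :
    G.dist u v + 2 ≤ g := by
  have key : ∀ e ∈ c.edges, e ≠ s(u, v) → e ∈ G.edgeSet := by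
    intro e he hne
    have h1 := c.edges_subset_edgeSet he
    induction e using Sym2.ind with
    | _ x y =>
      rw [mem_edgeSet, sup_adj, edge_adj] at h1
      rcases h1 with h1 | ⟨h1, h2⟩
      · exact h1
      · exfalso
        apply hne
        rcases h1 with ⟨rfl, rfl⟩ | ⟨rfl, rfl⟩
        · rfl
        · exact Sym2.eq_swap
  by_cases he : s(u, v) ∈ c.edges
  · obtain ⟨q, hq1, hq2⟩ := around c hc.isTrail he
    have hq3 : ∀ e ∈ q.edges, e ∈ G.edgeSet := by
      intro e h
      have h1 := q.edges_subset_edgeSet h
      have hne : e ≠ s(u, v) := fun h' => hq2 (h' ▸ h)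
      induction e using Sym2.ind with
      | _ x y =>
        rw [mem_edgeSet, sup_adj, edge_adj] at h1
        rcases h1 with h1 | ⟨h1, h2⟩
        · exact h1
        · exfalso
          apply hne
          rcases h1 with ⟨rfl, rfl⟩ | ⟨rfl, rfl⟩
          · rfl
          · exact Sym2.eq_swap
    have h4 := dist_le (q.transfer G hq3)
    rw [Walk.length_transfer] at h4
    omega
  · exfalso
    have h5 : ∀ e ∈ c.edges, e ∈ G.edgeSet := fun e h => key e h (fun h' => he (h' ▸ h))
    have h6 := hG a (c.transfer G h5) (hc.transfer h5)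
    rw [Walk.length_transfer] at h6
    omega

end walks

section balls

variable {V : Type*} [Fintype V] {G : SimpleGraph V} [DecidableRel G.Adj]

omit [Fintype V] [DecidableRel G.Adj] in
/-- A vertex at distance `n + 1` has a neighbour at distance `n`. -/
theorem parent (hG : G.Connected) {u w : V} {n : ℕ} (h : G.dist u w = n + 1) :
    ∃ x, G.Adj w x ∧ G.dist u x = n := by
  rw [dist_comm] at h
  obtain ⟨p, hp⟩ := hG.exists_walk_length_eq_dist w u
  rw [h] at hp
  cases p with
  | nil => simp at hp
  | @cons _ x _ hx q =>
    refine ⟨x, hx, ?_⟩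
    rw [Walk.length_cons] at hp
    have h1 : G.dist x u ≤ n := by
      have := dist_le q
      omega
    have h2 : G.dist w u ≤ G.dist w x + G.dist x u := hG.dist_triangle
    have h3 : G.dist w x ≤ 1 := by
      have := dist_le (Walk.cons hx Walk.nil)
      simpa using this
    rw [dist_comm]
    omega

theorem level_one (hd : ∀ v, G.degree v ≤ 3) (u : V) :
    (Finset.univ.filter (fun v => G.dist u v = 1)).card ≤ 3 := by
  refine le_trans (Finset.card_le_card ?_) (hd u)
  intro v hv
  rw [Finset.mem_filter] at hv
  rw [mem_neighborFinset]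
  exact dist_eq_one_iff_adj.mp hv.2

theorem level_succ [DecidableEq V] (hG : G.Connected) (hd : ∀ v, G.degree v ≤ 3) (u : V) (n : ℕ) :
    (Finset.univ.filter (fun v => G.dist u v = n + 2)).card ≤
      2 * (Finset.univ.filter (fun v => G.dist u v = n + 1)).card := by
  have hsub : (Finset.univ.filter (fun v => G.dist u v = n + 2)) ⊆
      (Finset.univ.filter (fun v => G.dist u v = n + 1)).biUnion
        (fun w => (G.neighborFinset w).filter (fun v => G.dist u v = n + 2)) := by
    intro v hv
    rw [Finset.mem_filter] at hv
    obtain ⟨w, hw, hw2⟩ := parent hG hv.2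
    rw [Finset.mem_biUnion]
    refine ⟨w, by simp [hw2], ?_⟩
    rw [Finset.mem_filter, mem_neighborFinset]
    exact ⟨hw.symm, hv.2⟩
  refine le_trans (Finset.card_le_card hsub) ?_
  refine le_trans Finset.card_biUnion_le ?_
  rw [mul_comm, ← smul_eq_mul, ← Finset.sum_const]
  refine Finset.sum_le_sum ?_
  intro w hw
  rw [Finset.mem_filter] at hw
  obtain ⟨x, hx, hx2⟩ := parent hG hw.2
  have h1 : (G.neighborFinset w).filter (fun v => G.dist u v = n + 2) ⊆
      (G.neighborFinset w).erase x := by
    intro v hv
    rw [Finset.mem_filter] at hv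
    rw [Finset.mem_erase]
    refine ⟨?_, hv.1⟩
    rintro rfl
    omega
  have h2 : ((G.neighborFinset w).erase x).card + 1 = (G.neighborFinset w).card :=
    Finset.card_erase_add_one (by rw [mem_neighborFinset]; exact hx)
  have h3 : (G.neighborFinset w).card ≤ 3 := hd w
  have h4 := Finset.card_le_card h1
  omega

theorem level_card [DecidableEq V] (hG : G.Connected) (hd : ∀ v, G.degree v ≤ 3) (u : V) (n : ℕ) :
    (Finset.univ.filter (fun v => G.dist u v = n + 1)).card ≤ 3 * 2 ^ n := by
  induction n with
  | zero => simpa using level_one hd u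
  | succ n ih =>
    have := level_succ hG hd u n
    rw [pow_succ]
    have e : n + 1 + 1 = n + 2 := rfl
    rw [e]
    omega

theorem ball_card [DecidableEq V] (hG : G.Connected) (hd : ∀ v, G.degree v ≤ 3) (u : V) (n : ℕ) :
    (Finset.univ.filter (fun v => G.dist u v ≤ n)).card ≤ 3 * 2 ^ n := by
  induction n with
  | zero =>
    have : (Finset.univ.filter (fun v => G.dist u v ≤ 0)) ⊆ {u} := by
      intro v hv
      rw [Finset.mem_filter] at hv
      rw [Finset.mem_singleton]
      have h0 : G.dist u v = 0 := by omega
      exact (hG.dist_eq_zero_iff.mp h0).symm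
    have h1 := Finset.card_le_card this
    rw [Finset.card_singleton] at h1
    omega
  | succ n ih =>
    have hsub : (Finset.univ.filter (fun v => G.dist u v ≤ n + 1)) ⊆
        (Finset.univ.filter (fun v => G.dist u v ≤ n)) ∪
        (Finset.univ.filter (fun v => G.dist u v = n + 1)) := by
      intro v hv
      rw [Finset.mem_filter] at hv
      rw [Finset.mem_union, Finset.mem_filter, Finset.mem_filter]
      rcases Nat.lt_or_ge (G.dist u v) (n + 1) with h | h
      · exact Or.inl ⟨Finset.mem_univ _, by omega⟩
      · exact Or.inr ⟨Finset.mem_univ _, by omega⟩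
    have h1 := Finset.card_le_card hsub
    have h2 := Finset.card_union_le (Finset.univ.filter (fun v => G.dist u v ≤ n))
      (Finset.univ.filter (fun v => G.dist u v = n + 1))
    have h3 := level_card hG hd u n
    rw [pow_succ]
    omega

end balls

/-- The path graph has no cycle. -/
theorem path_acyclic (n : ℕ) : (pathGraph n).IsAcyclic := by
  rw [isAcyclic_iff_forall_adj_isBridge]
  have main : ∀ ⦃v w : Fin n⦄, v.val + 1 = w.val → (pathGraph n).IsBridge s(v, w) := by
    intro v w hvw
    rw [isBridge_iff]
    rintro ⟨p⟩
    have inv : ∀ {x y : Fin n} (q : ((pathGraph n).deleteEdges {s(v, w)}).Walk x y),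
        x.val ≤ v.val → y.val ≤ v.val := by
      intro x y q
      induction q with
      | nil => exact id
      | @cons a b c h q ih =>
        intro ha
        apply ih
        rw [deleteEdges_adj, pathGraph_adj] at h
        obtain ⟨h1, h2⟩ := h
        rcases h1 with h1 | h1
        · by_contra hlt
          apply h2
          have e1 : a = v := Fin.ext (by omega)
          have e2 : b = w := Fin.ext (by omega)
          rw [e1, e2]
          exact Set.mem_singleton _
        · omega
    have := inv p le_rfl
    omega
  intro v w hvw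
  rw [pathGraph_adj] at hvw
  rcases hvw with h | h
  · exact main h
  · rw [Sym2.eq_swap]
    exact main h

theorem deg_add {V : Type*} [Fintype V] [DecidableEq V] {H G' : SimpleGraph V}
    [DecidableRel H.Adj] [DecidableRel G'.Adj] {u v : V} (huv : u ≠ v)
    (hG' : ∀ x y, G'.Adj x y → H.Adj x y ∨ (x = u ∧ y = v) ∨ (x = v ∧ y = u))
    (hd : ∀ v, H.degree v ≤ 3) (hu : H.degree u ≤ 2) (hv : H.degree v ≤ 2) (w : V) :
    G'.degree w ≤ 3 := by
  by_cases hwu : w = u
  · subst hwu
    have hsub : G'.neighborFinset w ⊆ insert v (H.neighborFinset w) := by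
      intro x hx
      rw [mem_neighborFinset] at hx
      rw [Finset.mem_insert, mem_neighborFinset]
      rcases hG' _ _ hx with hx | ⟨h1, h2⟩ | ⟨h1, h2⟩
      · exact Or.inr hx
      · exact Or.inl h2
      · exact absurd h1 huv
    have h1 := Finset.card_le_card hsub
    have h2 := Finset.card_insert_le v (H.neighborFinset w)
    rw [card_neighborFinset_eq_degree] at h1 h2
    omega
  · by_cases hwv : w = v
    · subst hwv
      have hsub : G'.neighborFinset w ⊆ insert u (H.neighborFinset w) := by
        intro x hx
        rw [mem_neighborFinset] at hx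
        rw [Finset.mem_insert, mem_neighborFinset]
        rcases hG' _ _ hx with hx | ⟨h1, h2⟩ | ⟨h1, h2⟩
        · exact Or.inr hx
        · exact absurd h1 hwu
        · exact Or.inl h2
      have h1 := Finset.card_le_card hsub
      have h2 := Finset.card_insert_le u (H.neighborFinset w)
      rw [card_neighborFinset_eq_degree] at h1 h2
      omega
    · have hsub : G'.neighborFinset w ⊆ H.neighborFinset w := by
        intro x hx
        rw [mem_neighborFinset] at hx
        rw [mem_neighborFinset]
        rcases hG' _ _ hx with hx | ⟨h1, h2⟩ | ⟨h1, h2⟩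
        · exact hx
        · exact absurd h1 hwu
        · exact absurd h1 hwv
      have h1 := Finset.card_le_card hsub
      rw [card_neighborFinset_eq_degree, card_neighborFinset_eq_degree] at h1
      exact h1.trans (hd w)

theorem es : S_ES := by
  classical
  intro g hg
  set n : ℕ := 100 * 2 ^ g - 1 with hn
  have hpos : 0 < 2 ^ g := by positivity
  have hn1 : n + 1 = 100 * 2 ^ g := by omega
  let F : Set (SimpleGraph (Fin (n + 1))) :=
    {H | pathGraph (n + 1) ≤ H ∧ (∀ v, H.degree v ≤ 3) ∧
      ∀ (v : Fin (n + 1)) (p : H.Walk v v), p.IsCycle → g ≤ p.length}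
  have hne : F.Nonempty := by
    refine ⟨pathGraph (n + 1), le_rfl, ?_, ?_⟩
    · intro v
      have hsub : (pathGraph (n + 1)).neighborFinset v ⊆
          (Finset.univ.filter (fun w : Fin (n + 1) => w.val = v.val + 1)) ∪
          (Finset.univ.filter (fun w : Fin (n + 1) => w.val + 1 = v.val)) := by
        intro w hw
        rw [mem_neighborFinset, pathGraph_adj] at hw
        rw [Finset.mem_union, Finset.mem_filter, Finset.mem_filter]
        rcases hw with h | h
        · exact Or.inl ⟨Finset.mem_univ _, h.symm⟩
        · exact Or.inr ⟨Finset.mem_univ _, h⟩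
      have h1 := Finset.card_le_card hsub
      have h2 := Finset.card_union_le
        (Finset.univ.filter (fun w : Fin (n + 1) => w.val = v.val + 1))
        (Finset.univ.filter (fun w : Fin (n + 1) => w.val + 1 = v.val))
      have h3 : (Finset.univ.filter (fun w : Fin (n + 1) => w.val = v.val + 1)).card ≤ 1 := by
        rw [Finset.card_le_one]
        intro a ha b hb
        rw [Finset.mem_filter] at ha hb
        exact Fin.ext (by omega)
      have h4 : (Finset.univ.filter (fun w : Fin (n + 1) => w.val + 1 = v.val)).card ≤ 1 := by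
        rw [Finset.card_le_one]
        intro a ha b hb
        rw [Finset.mem_filter] at ha hb
        exact Fin.ext (by omega)
      rw [card_neighborFinset_eq_degree] at h1
      omega
    · intro v p hp
      exact absurd hp (path_acyclic (n + 1) p)
  obtain ⟨H, hH⟩ := (Set.toFinite F).exists_maximal hne
  obtain ⟨⟨hH1, hH2, hH3⟩, hmax⟩ := hH
  have hconn : H.Connected := (pathGraph_connected n).mono hH1
  have hdist : ∀ u v, u ≠ v → H.degree u ≤ 2 → H.degree v ≤ 2 → H.dist u v + 2 ≤ g := by
    intro u v huv hu hv
    by_cases hadj : H.Adj u v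
    · have := dist_eq_one_iff_adj.mpr hadj
      omega
    · by_contra hcon
      have hlt := H.lt_sup_edge u v huv hadj
      have hin : (H ⊔ edge u v) ∈ F := by
        refine ⟨hH1.trans hlt.le, ?_, ?_⟩
        · intro w
          have hG' : ∀ x y, (H ⊔ edge u v).Adj x y →
              H.Adj x y ∨ (x = u ∧ y = v) ∨ (x = v ∧ y = u) := by
            intro x y hxy
            rw [sup_adj, edge_adj] at hxy
            rcases hxy with h | ⟨h, _⟩
            · exact Or.inl h
            · exact Or.inr h
          convert deg_add huv hG' hH2 hu hv w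
        · intro a c hc
          by_contra hlen
          exact hcon (close hH3 c hc (not_le.mp hlen))
      exact absurd (hmax hin hlt.le) (not_le_of_gt hlt)
  -- the set of deficient vertices
  let S : Finset (Fin (n + 1)) := Finset.univ.filter (fun v => H.degree v ≤ 2)
  have hS : S.card ≤ 3 * 2 ^ g := by
    rcases S.eq_empty_or_nonempty with h0 | ⟨u, hu⟩
    · rw [h0]; simp
    · have hu2 : H.degree u ≤ 2 := (Finset.mem_filter.mp hu).2
      refine le_trans (Finset.card_le_card ?_) (ball_card hconn hH2 u g)
      intro v hv
      have hv2 : H.degree v ≤ 2 := (Finset.mem_filter.mp hv).2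
      rw [Finset.mem_filter]
      refine ⟨Finset.mem_univ _, ?_⟩
      by_cases huv : u = v
      · rw [← huv, SimpleGraph.dist_self]; omega
      · have := hdist u v huv hu2 hv2
        omega
  have hsum : 3 * (n + 1) ≤ ∑ v, H.degree v + 3 * S.card := by
    have h1 : ∀ v ∈ (Finset.univ : Finset (Fin (n + 1))),
        3 ≤ H.degree v + (if v ∈ S then 3 else 0) := by
      intro v _
      by_cases hv : v ∈ S
      · rw [if_pos hv]; omega
      · rw [if_neg hv]
        by_contra hlt
        apply hv
        rw [Finset.mem_filter]
        exact ⟨Finset.mem_univ _, by omega⟩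
    have h2 := Finset.sum_le_sum h1
    rw [Finset.sum_const, Finset.card_univ, Fintype.card_fin, smul_eq_mul,
      Finset.sum_add_distrib, Finset.sum_ite_mem, Finset.univ_inter, Finset.sum_const,
      smul_eq_mul] at h2
    omega
  refine ⟨n + 1, H, inferInstance, Nat.succ_pos n, ?_, hconn, ?_, ?_, hH3⟩
  · omega
  · intro v
    convert hH2 v
  · have h3 : 29 * (n + 1) ≤ 10 * ∑ v, H.degree v := by omega
    convert h3

end Pool.Agent.Y259.EG
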